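import Pool.Agent.Helper80.SE.Main3

/-!
Zero in the spectrum for finite aspherical complexes whose fundamental group `G` has a subgroup `K`
such that `G/K` has subexponential growth, for instance a normal subgroup with nilpotent quotient.

`X : FinRes G` is the cellular chain complex of the universal cover of a finite aspherical complex
`M` with fundamental group `G` (`Pool.Agent.H919R4.ZS.Defs`) and `X.homology (toRed G) i` is
`H_i(M; C*_r(G))`. Homogeneous cochains of `K` with values in `ℓ²(K)`, given by functions on `K^m`,
and lengths on `G/K` are defined in `Pool.Agent.Helper80.SE.Stmt`.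

If `K` is hyperbolic then all classes of degree at least two are bounded (Mineyev). So for a
hyperbolic group `K` with infinitely many automorphisms the theorem applies to all extensions of
nilpotent groups by `K`, in particular to all mapping tori; nothing is assumed about the action of
`G` on `K`.
-/

set_option autoImplicit false

namespace Pool.Agent.Results.MP_9f173d_gt.SubexponentialQuotients

open Pool.Agent.H919R4.ZS (FinRes toRed)
open Pool.Agent.Helper80.SE.St (NonzeroClass Bounded SlowLength SlowAlong)

/-- Let `K` be a subgroup of `G` such that `G/K` has subexponential growth, and let `c` be a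
homogeneous cocycle of degree `n + 1 ≥ 1` of `K` with values in `ℓ²(K)` whose class in
`H^(n+1)(K; ℓ²(K))` is not zero. Suppose that `c` is bounded; or that there is a `K`-equivariant
retraction `r` of `G` onto `K` such that `c` grows subexponentially along `r`. Then
`H_i(M; C*_r(G)) ≠ 0` for some `i ≤ n + 1`. -/
theorem result (G : Type) [Group G] (X : FinRes G) (K : Subgroup G) (L : G ⧸ K → ℝ)
    (hL : SlowLength K L) (n : ℕ) (c : (Fin (n + 2) → K) → ℂ) (hc : NonzeroClass c)
    (h : Bounded c ∨ ∃ r : G → K, SlowAlong K L r c) :
    ∃ i ≤ n + 1, Nontrivial (X.homology (toRed G) i) :=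
  Pool.Agent.Helper80.SE.final X hL n hc h

end Pool.Agent.Results.MP_9f173d_gt.SubexponentialQuotients
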