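import Pool.Agent.Helper80.TD.Main

/-!
Zero in the spectrum for finite aspherical complexes whose fundamental group `G` acts on an acyclic
complex of dimension two such that the stabilisers of the two-dimensional cells are amenable and
the stabilisers of the edges have finite hierarchies over amenable groups. Nothing is assumed about
the stabilisers of the vertices, except that they have infinite index.

`X : FinRes G` is the cellular chain complex of the universal cover of a finite aspherical complex
`M` with fundamental group `G` (`Pool.Agent.H919R4.ZS.Defs`) and `X.homology (toRed G) i` is
`H_i(M; C*_r(G))`. The definitions are in `Pool.Agent.Helper80.TD.Stmt`.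

Examples. (1) The complex is a tree: nontrivial amalgamated products and HNN extensions of arbitrary
groups over an amenable group, a free group, a surface group, a limit group, the fundamental group
of a graph manifold, or any other group with a finite hierarchy over amenable groups. (2) Groups
with a two-dimensional classifying space for the family of the amenable subgroups. (3) Quotients of
a free product of arbitrary groups by a relation with small cancellation, which act on an acyclic
complex of dimension two with free actions on the edges. The dimension of `M` is arbitrary.
-/

set_option autoImplicit false

namespace Pool.Agent.Results.MP_9f173d_gt.TwoDimensionalActions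

open Pool.Agent.H919R4.ZS (FinRes toRed)
open Pool.Agent.Helper80.TD (Complex2 Hierarchy SmallSet NoFiniteOrbit)

/-- Let `G` act on a rationally acyclic complex `Y` of dimension two without finite orbits of cells.
Suppose that the stabilisers of the two-dimensional cells are amenable, or of exponent zero in `G`,
and that the stabilisers of the edges have finite hierarchies over such groups. Then
`H_i(M; C*_r(G)) ≠ 0` for some `i ≤ 2`. -/
theorem result (G : Type) [Group G] (X : FinRes G) (Y : Complex2 G) (hV : NoFiniteOrbit G Y.V)
    (hE : Hierarchy G Y.E Y.actE) (hF : SmallSet G Y.F) :
    ∃ i ≤ 2, Nontrivial (X.homology (toRed G) i) :=
  Pool.Agent.Helper80.TD.final X Y hV hE hF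

end Pool.Agent.Results.MP_9f173d_gt.TwoDimensionalActions
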